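import Mathlib
import Pool.Agent.X139.FixSets

set_option autoImplicit false

open Pool.Agent.H632R3.Branch Pool.Agent.X139.Fix

namespace Pool.Agent.Results.MP_f48e0c_pr.FiniteFixedPointSets

/-- The set `S` of fixed points in `[0,1]^X` of the generating function. -/
def fixedPoints {X : Type} (μ : X → PMF (X →₀ ℕ)) : Set (X → ℝ) :=
  {s | (∀ x, 0 ≤ s x ∧ s x ≤ 1) ∧ gen μ s = s}

/-- The set `Ext` of the extinction vectors `q(A)` for all sets `A` of types. -/
def extSet {X : Type} [Countable X] (μ : X → PMF (X →₀ ℕ)) : Set (X → ℝ) :=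
  {s | ∃ A : Set X, s = qSet μ A}

/-- If the generating function of a multitype Galton-Watson process with countably many types has
only finitely many fixed points, then every fixed point is an extinction vector: `S = Ext`. -/
theorem result (X : Type) [Countable X] (μ : X → PMF (X →₀ ℕ)) (hfin : (fixedPoints μ).Finite) :
    fixedPoints μ = extSet μ := by
  apply Set.Subset.antisymm
  · rintro s ⟨hs, hfix⟩
    exact ⟨{x | s x < 1}, (main μ hfin hs hfix).symm⟩
  · rintro s ⟨A, rfl⟩
    exact ⟨qSet_box μ A, qSet_fixed μ A⟩

end Pool.Agent.Results.MP_f48e0c_pr.FiniteFixedPointSets
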